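import Pool.Agent.helper83.ORE.SpecDE

/-! Row ore:DNU (MP_561ff4_al). -/

set_option autoImplicit false

namespace Pool.Agent.ORE

open Module Pool.Agent.GS

theorem DNU_aux {F E : Type} [Field F] [Finite F] [Field E] [Algebra F E]
    [FiniteDimensional F E] (x : E) (h : ∀ c : E, Algebra.trace F E (x * c) = 0) : x = 0 := by
  have h1 := (traceForm_nondegenerate F E).1 x
  apply h1
  intro c
  rw [Algebra.traceForm_apply]
  exact h c

theorem DNU : DNU_stmt := by
  intro F E _ _ _ _ _ _ ρ z h
  have h1 : z.re = 0 := by
    apply DNU_aux (F := F)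
    intro c
    have h2 := h ⟨0, c⟩
    simpa using h2
  have h2 : z.im = 0 := by
    apply DNU_aux (F := F)
    intro c
    have h3 := h ⟨c, 0⟩
    simpa using h3
  apply QuadraticAlgebra.ext
  · simpa using h1
  · simpa using h2

end Pool.Agent.ORE
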